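import Pool.Agent.Y101.Th.CycMain

/-!
# Jannsen's question on cycle classes over finite fields and systems of bilinear equations
-/

set_option autoImplicit false

open CategoryTheory AlgebraicGeometry Pool.Agent.Y116.UV Pool.Agent.Y101.Th

namespace Pool.Agent.Results.MP_3af9db_ag.BilinearSystems

variable {k Ω : Type} [Field k] [Field Ω] [CharZero Ω] {T : Homology k Ω}

/-- **Cycle classes over finite fields and bilinear equations.** Let `k` be a finite field. The cycle
class maps `CH_j(X) ⊗ ℚ_ℓ → H_{2 j}(X, ℚ_ℓ(j))^G` are bijective for all separated schemes `X` of finite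
type over `k` and all `j` if and only if, for all systems of bilinear equations
`∑_{j, l} t_ijl y_j z_l = 0`, they are bijective for the affine scheme of the solutions, and the
eigenvalue one of the Frobenius is semisimple on `H_{2 j}`; over a prime field the systems with
coefficients `0` and `1` are sufficient. The systems with `n + 1` variables `z` are sufficient for all
closed subschemes of `𝔸^n`. Both statements are true for the systems with at most three equations, at
most three variables `y`, or at most three variables `z`. -/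
theorem result [Finite k] (hT : IsHomology T) (hK : CycKnown T)
    (hC : ∀ X : Sch k, FT True X → topologicalKrullDim X.left ≤ 1 → TB T X) :
    ((∀ X : Sch k, FT True X → CycIso T X) ↔
      ∀ (a b c : ℕ) (t : Fin a → Fin b → Fin c → k),
        CycIso T (bilS t) ∧ Semisimple T (bilS t)) ∧
    ((Nat.card k).Prime → ((∀ X : Sch k, FT True X → CycIso T X) ↔
      ∀ (a b c : ℕ) (t : Fin a → Fin b → Fin c → k), (∀ i j l, t i j l = 0 ∨ t i j l = 1) →
        CycIso T (bilS t) ∧ Semisimple T (bilS t))) ∧
    (∀ n : ℕ, (∀ (a b : ℕ) (t : Fin a → Fin b → Fin (n + 1) → k),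
        CycIso T (bilS t) ∧ Semisimple T (bilS t)) →
      ∀ I : Ideal (MvPolynomial (Fin n) k), CycIso T (aff k (MvPolynomial (Fin n) k ⧸ I)) ∧
        Semisimple T (aff k (MvPolynomial (Fin n) k ⧸ I))) ∧
    ∀ (a b c : ℕ) (t : Fin a → Fin b → Fin c → k), (a ≤ 3 ∨ b ≤ 3 ∨ c ≤ 3) →
      CycIso T (bilS t) ∧ Semisimple T (bilS t) := by
  refine ⟨⟨fun h a b c t => ⟨h _ (ft_aff True), semisimple_of_all hT hK h _ (ft_aff True)⟩,
    fun h X hX => ?_⟩, fun hk => ⟨fun h a b c t _ => ⟨h _ (ft_aff True),
    semisimple_of_all hT hK h _ (ft_aff True)⟩, fun h X hX => ?_⟩, fun n h I => ?_,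
    fun a b c t hm => ?_⟩
  · exact ((jj_iff hT X).mp (jj_all hT hK (S := Set.univ) trivial trivial
      (fun n => has_all trivial trivial has_const)
      (fun a b c t _ => (jj_iff hT _).mpr (h a b c t)) X hX)).1
  · exact ((jj_iff hT X).mp (jj_all hT hK (S := {0, 1}) (Or.inl rfl) (Or.inr rfl)
      (fun n => has_all (Or.inl rfl) (Or.inr rfl)
        (has_int (Or.inl rfl) (Or.inr rfl) (int_surj hk)))
      (fun a b c t ht => (jj_iff hT _).mpr (h a b c t ht)) X hX)).1
  · exact (jj_iff hT _).mp (closed_of_bil (dn_cyc hT hK) (S := Set.univ) trivial trivial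
      (has_all trivial trivial has_const)
      (fun a b t _ => (jj_iff hT _).mpr (h a b t)) I)
  · exact (jj_iff hT _).mp (jj_of_tb hT (bilS_of_hypS (uni_tb hT) t
      (gen_curves (bnd_tb hT) hC a b c t hm)))

end Pool.Agent.Results.MP_3af9db_ag.BilinearSystems
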