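import Pool.Agent.Y99.NF.Main

/-!
# Cycle classes over finite fields and the cohomology of rational function fields

Let `k` be a finite field and `G` its absolute Galois group. For a finitely generated field `K = k(V)`
over `k` let `H^i(K, ℚ_ℓ(j))` be the direct limit of the `ℓ`-adic cohomology groups (over the algebraic
closure of `k`) of the open subsets of the variety `V`.

The cycle class maps `CH_b(X) ⊗ ℚ_ℓ → H_{2b}(X, ℚ_ℓ(b))^G` are isomorphisms

* for all varieties `X` over `k` of dimension at most `d` and all `b` if and only if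
  `H^i(k(t_1, …, t_{d+1}), ℚ_ℓ([i/2] + 1))^G = 0` for `3 ≤ i ≤ d + 1`;
* for all varieties over `k` and all `b ≤ 1` if and only if `H^3(k(x, y, z), ℚ_ℓ(2))^G = 0` and
  `H^4(k(x, y, z, w), ℚ_ℓ(3))^G = 0`; similarly for the cycles of dimension at most `b`.
-/

set_option autoImplicit false

open CategoryTheory AlgebraicGeometry Pool.Agent.Y116.UV Pool.Agent.Y101.Th Pool.Agent.Y99.NF

namespace Pool.Agent.Results.MP_3af9db_ag.CyclesOfDimension

variable {k Ω : Type} [Field k] [Field Ω]

/-- The vanishing of the invariants for rational function fields which corresponds to the cycles of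
dimension at most `b`. -/
def RationalVanishing (T : Theory k Ω) (b : ℕ) : Prop :=
  (∀ r : ℕ, 1 ≤ r → r ≤ b → Van T (rat k (b + r + 1)) (2 * r + 1) (r + 1)) ∧
    ∀ r : ℕ, 2 ≤ r → r ≤ b + 1 → Van T (rat k (b + r + 1)) (2 * r) (r + 1)

/-- (1) For cycles of dimension `b` on varieties of dimension at most `n` the cycle class maps are
isomorphisms onto the invariants if and only if this is so, and the eigenvalue one is semisimple, for
the smooth projective varieties of dimension at most `n`, if and only if the invariants vanish in at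
most two bidegrees for each field of transcendence degree at most `n`; then the eigenvalue one is
semisimple for all varieties of dimension at most `n`. (2) `n = 2 b + 1` is sufficient for all `n`.
(3) Cycles of dimension at most `b` on all varieties. (4) All cycles on varieties of dimension at most
`d`. (5) Cycles of dimension at most one. -/
theorem result [Finite k] (T : Theory k Ω) (hT : IsBasic T) :
    (∀ b n : ℤ, (ClIso T b n ↔ Small T b n) ∧
      (ClIso T b n ↔ ∀ K : Fld k, FG K → td K ≤ n → LineAt T K b) ∧
      (ClIso T b n → ∀ X : Sch k, FT True X → ∀ S : Set X.left, IsLocallyClosed S → DimLE S n →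
        (T.H X S (2 * b) b).Good)) ∧
    (∀ b n : ℤ, ClIso T b (2 * b + 1) → ClIso T b n) ∧
    (∀ b : ℕ, (∀ c n : ℤ, c ≤ b → ClIso T c n) ↔ RationalVanishing T b) ∧
    (∀ d : ℕ, (∀ b : ℤ, ClIso T b d) ↔
      ∀ i : ℤ, 3 ≤ i → i ≤ d + 1 → Van T (rat k (d + 1)) i (i / 2 + 1)) ∧
    ((∀ c n : ℤ, c ≤ 1 → ClIso T c n) ↔ Van T (rat k 3) 3 2 ∧ Van T (rat k 4) 4 3) := by
  have hH := hT.toIsHomology
  have hG := hT.toIsGeneric
  have hC := hT.toIsCohomology
  have hK := hT.toIsKnown
  have h3 : ∀ b : ℕ, (∀ c n : ℤ, c ≤ b → ClIso T c n) ↔ RationalVanishing T b := by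
    intro b
    rw [RationalVanishing, ← rat_cycles hH hG hC hK]
    constructor
    · intro h c hc K hKf
      exact (iso_iff_lines hH hG hC hK c (td K)).mp (h c _ hc) K hKf le_rfl
    · intro h c n hc
      exact (iso_iff_lines hH hG hC hK c n).mpr fun K hKf _ => h c hc K hKf
  refine ⟨fun b n => ⟨?_, iso_iff_lines hH hG hC hK b n, fun h => ?_⟩,
    fun b n h => iso_bound hT h n, h3, fun d => ?_, ?_⟩
  · rw [iso_iff_lines hH hG hC hK, small_iff_lines hH hG hC hK]
  · exact (all_iff_lines hH hG hC hK b n).mpr ((iso_iff_lines hH hG hC hK b n).mp h)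
  · rw [← rat_dim hH hG hC hK]
    exact forall_congr' fun b => iso_iff_lines hH hG hC hK b d
  · have h := h3 1
    rw [Nat.cast_one] at h
    rw [h]
    constructor
    · rintro ⟨h1, h2⟩
      have h1' := h1 1 le_rfl le_rfl
      have h2' := h2 2 le_rfl le_rfl
      norm_num at h1' h2'
      exact ⟨h1', h2'⟩
    · rintro ⟨h1, h2⟩
      constructor
      · intro r hr hr'
        obtain rfl : r = 1 := by omega
        norm_num
        exact h1
      · intro r hr hr'
        obtain rfl : r = 2 := by omega
        norm_num
        exact h2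

end Pool.Agent.Results.MP_3af9db_ag.CyclesOfDimension
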