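import Pool.Agent.Y712.AJ.Sec

/-!
# Cycle class maps over finite fields: cycles of dimension `i` on varieties of dimension `2 i + 1`

Let `C` be the Chow theory (with rational coefficients) of the smooth projective varieties over a finite
field, `H` the `ℓ`-adic cohomology, with coefficients in `K = ℚ_ℓ`, and `G` the Tate classes, that is, the
classes in the groups `H^{2n}(X)(n)` which are fixed by the Galois group. We consider the conjecture that
`cl_i : CH_i(X) ⊗ ℚ_ℓ → H_{2i}(X)(i)^G` is an isomorphism, for a fixed dimension `i` of the cycles.

1. `cl_i` is injective for all `X` if and only if it is injective for the `X` of dimension `2 i + 1`.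
2. `cl_i` is surjective for all `X` if and only if it is surjective for the `X` of dimension `2 i`.
3. `cl_i` is an isomorphism for all `X` if and only if it is an isomorphism for the `X` of dimension
   `2 i + 1`. (For zero-cycles: curves, where this is known; for one-cycles: threefolds.)

For (1) finitely many cycles of dimension `i` are moved to a smooth complete intersection of dimension
`2 i + 1` in a product of `X` with projective spaces (`HasSections`: alterations, Poonen's theorem on
smooth hypersurface sections containing a given subscheme, weak Lefschetz). (2) is classical.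
-/

set_option autoImplicit false

open CategoryTheory AlgebraicGeometry

universe u v w

namespace Pool.Agent.Results.MP_3af9db_ag.OddDimensions

open Pool.Agent.Y101.Aq Pool.Agent.H914 VarClass Obj Pool.Agent.W492.BB Pool.Agent.TH133
  Pool.Agent.Y712.Sec

/-- **The cycle class maps in dimension `i` are injective (bijective) for all varieties if and only if
they are so for the varieties of dimension `2 i + 1`, and surjective if and only if they are so for the
varieties of dimension `2 i`.** -/
theorem result {k : Type u} [Field k] {𝒱 : VarClass k} {C : TheoryData.{u, v, 0} 𝒱 ℚ}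
    [IsChowProj C] {K : Type w} [Field K] {H : WeilTheoryData.{u, v, w} C K} [IsWeilProj H]
    (hS : HasSections H) {G : TateData H} (hG : IsTate G) (i : ℕ) :
    ((∀ X : 𝒱.Obj, i ≤ X.dim → ClInjective H i X) ↔
      ∀ X : 𝒱.Obj, X.dim = 2 * i + 1 → ClInjective H i X) ∧
    ((∀ X : 𝒱.Obj, ClSurjective G i X) ↔ ∀ X : 𝒱.Obj, X.dim = 2 * i → ClSurjective G i X) ∧
    ((∀ X : 𝒱.Obj, i ≤ X.dim → ClBijective G i X) ↔
      ∀ X : 𝒱.Obj, X.dim = 2 * i + 1 → ClBijective G i X) :=
  ⟨inj_reduction hS i, surj_reduction hG i, bij_reduction hS hG i⟩

end Pool.Agent.Results.MP_3af9db_ag.OddDimensions
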